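import Mathlib
import Pool.Agent.Helper99.CT.Defs

/-!
Project CT (cactus groups, MP_2b0b8a_al), packet CT-SYL: every 2-subgroup of the symmetric group
embeds into the cactus group.
-/

set_option autoImplicit false

namespace Pool.Agent.Helper94.CT

open Pool.Agent.Helper99.CT
open scoped Pointwise

theorem syl : GoalSyl := by
  intro n G _ _ hG ⟨g, hg⟩
  obtain ⟨G', iG', fG', hcard, f, hf⟩ := exists_big n
  have hfact : Fact (Nat.Prime 2) := ⟨Nat.prime_two⟩
  obtain ⟨P, hPdef⟩ : ∃ P : Subgroup (Equiv.Perm (Fin n)), P = ((rho n).comp f).range := ⟨_, rfl⟩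
  have e : G' ≃* P := by
    rw [hPdef]
    exact MonoidHom.ofInjective hf
  have hP : Nat.card P = 2 ^ (Nat.card (Equiv.Perm (Fin n))).factorization 2 := by
    rw [← Nat.card_congr e.toEquiv, hcard, Nat.card_eq_fintype_card, Fintype.card_perm,
      Fintype.card_fin, Nat.factorization_def _ Nat.prime_two]
  have hgr : IsPGroup 2 g.range := by
    intro x
    obtain ⟨y, hy⟩ := x.2
    obtain ⟨k, hk⟩ := hG y
    refine ⟨k, Subtype.ext ?_⟩
    rw [Subgroup.coe_pow, ← hy, ← map_pow, hk, map_one]
    rfl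
  obtain ⟨S', hS'⟩ := hgr.exists_le_sylow
  obtain ⟨c, hc⟩ := MulAction.exists_smul_eq (Equiv.Perm (Fin n)) S' (Sylow.ofCard P hP)
  have hmem : ∀ x : G, (MulAut.conj c).toMonoidHom.comp g x ∈ P := by
    intro x
    have h1 : g x ∈ (S' : Subgroup (Equiv.Perm (Fin n))) := hS' ⟨x, rfl⟩
    have h2 : MulAut.conj c • g x ∈ MulAut.conj c • (S' : Subgroup (Equiv.Perm (Fin n))) :=
      Subgroup.smul_mem_pointwise_smul _ _ _ h1
    have h3 : MulAut.conj c • (S' : Subgroup (Equiv.Perm (Fin n))) = P := by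
      have h4 := congrArg (fun T : Sylow 2 (Equiv.Perm (Fin n)) =>
        (T : Subgroup (Equiv.Perm (Fin n)))) hc
      exact h4
    rw [h3] at h2
    exact h2
  have hfi : Function.Injective f := by
    intro a b hab
    apply hf
    simp only [MonoidHom.comp_apply, hab]
  refine ⟨f.comp (e.symm.toMonoidHom.comp
    (((MulAut.conj c).toMonoidHom.comp g).codRestrict P hmem)), ?_⟩
  intro x y hxy
  have h1 := e.symm.injective (hfi hxy)
  have h2 := congrArg Subtype.val h1
  have h3 : MulAut.conj c (g x) = MulAut.conj c (g y) := h2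
  exact hg ((MulAut.conj c).injective h3)

end Pool.Agent.Helper94.CT
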